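import Pool.Agent.Y681.Para.Main

set_option autoImplicit false

namespace Pool.Agent.Y681.Para

open Matrix Function
open scoped Pointwise

/-- the lower shear -/
def Lo (c : ℝ) : SL := ⟨!![1, 0; c, 1], by simp⟩
/-- the upper shear -/
def Up (c : ℝ) : SL := ⟨!![1, c; 0, 1], by simp⟩

lemma Lo0 (c : ℝ) (v : V) : (Lo c).1.mulVec v 0 = v 0 := by
  simp [Lo, Matrix.mulVec, dotProduct, Fin.sum_univ_two]
lemma Lo1 (c : ℝ) (v : V) : (Lo c).1.mulVec v 1 = v 1 + c * v 0 := by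
  simp [Lo, Matrix.mulVec, dotProduct, Fin.sum_univ_two]; ring
lemma Up0 (c : ℝ) (v : V) : (Up c).1.mulVec v 0 = v 0 + c * v 1 := by
  simp [Up, Matrix.mulVec, dotProduct, Fin.sum_univ_two]
lemma Up1 (c : ℝ) (v : V) : (Up c).1.mulVec v 1 = v 1 := by
  simp [Up, Matrix.mulVec, dotProduct, Fin.sum_univ_two]

/-- the shear parameters -/
noncomputable def cc (k : Fin 9) : ℝ := ((k : ℕ) - 3 : ℝ) / 4

lemma ceil9 (u x : ℝ) (hu : 1 / 2 ≤ u) (hu1 : u ≤ 1) (hx0 : 0 < x) (hx1 : x < 1) :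
    ∃ k : Fin 9, 5 / 8 ≤ x + cc k * u ∧ x + cc k * u ≤ 7 / 8 := by
  classical
  have hex : ∃ k : ℕ, 5 / 8 ≤ x + ((k : ℝ) - 3) / 4 * u := ⟨8, by push_cast; nlinarith⟩
  set k := Nat.find hex with hk
  have h1 : 5 / 8 ≤ x + ((k : ℝ) - 3) / 4 * u := Nat.find_spec hex
  have h8 : k ≤ 8 := Nat.find_min' hex (by push_cast; nlinarith)
  have h0 : k ≠ 0 := by
    intro h
    rw [h] at h1
    push_cast at h1
    nlinarith
  have h2 : ¬ (5 / 8 ≤ x + (((k - 1 : ℕ) : ℝ) - 3) / 4 * u) :=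
    Nat.find_min hex (by omega)
  refine ⟨⟨k, by omega⟩, ?_, ?_⟩
  · simpa [cc] using h1
  · push Not at h2
    rw [Nat.cast_sub (by omega)] at h2
    simp only [cc]
    push_cast at h2
    nlinarith

/-- the shears bringing a point into the box -/
noncomputable def T (t : Bool × Fin 9 × Fin 9) : SL :=
  cond t.1 (Up (cc t.2.2) * Lo (cc t.2.1)) (Lo (cc t.2.2) * Up (cc t.2.1))

lemma toBox (v : V) (hv : ∀ i, 0 < v i ∧ v i < 1) (hv2 : ∃ i, 1 / 2 ≤ v i) :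
    ∃ t, ∀ i, 5 / 8 ≤ (T t).1.mulVec v i ∧ (T t).1.mulVec v i ≤ 7 / 8 := by
  have h0 := hv 0
  have h1 := hv 1
  have hc : 1 / 2 ≤ v 0 ∨ 1 / 2 ≤ v 1 := by
    obtain ⟨i, hi⟩ := hv2
    fin_cases i
    · exact Or.inl hi
    · exact Or.inr hi
  rcases hc with h | h
  · obtain ⟨k, hk1, hk2⟩ := ceil9 (v 0) (v 1) h h0.2.le h1.1 h1.2
    obtain ⟨l, hl1, hl2⟩ := ceil9 (v 1 + cc k * v 0) (v 0) (by linarith) (by linarith) h0.1 h0.2
    refine ⟨(true, k, l), ?_⟩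
    intro i
    show 5 / 8 ≤ (Up (cc l) * Lo (cc k)).1.mulVec v i ∧ (Up (cc l) * Lo (cc k)).1.mulVec v i ≤ 7 / 8
    rw [sl_mul]
    fin_cases i
    · show 5 / 8 ≤ (Up (cc l)).1.mulVec _ 0 ∧ (Up (cc l)).1.mulVec _ 0 ≤ 7 / 8
      rw [Up0, Lo0, Lo1]
      exact ⟨hl1, hl2⟩
    · show 5 / 8 ≤ (Up (cc l)).1.mulVec _ 1 ∧ (Up (cc l)).1.mulVec _ 1 ≤ 7 / 8
      rw [Up1, Lo1]
      exact ⟨hk1, hk2⟩
  · obtain ⟨k, hk1, hk2⟩ := ceil9 (v 1) (v 0) h h1.2.le h0.1 h0.2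
    obtain ⟨l, hl1, hl2⟩ := ceil9 (v 0 + cc k * v 1) (v 1) (by linarith) (by linarith) h1.1 h1.2
    refine ⟨(false, k, l), ?_⟩
    intro i
    show 5 / 8 ≤ (Lo (cc l) * Up (cc k)).1.mulVec v i ∧ (Lo (cc l) * Up (cc k)).1.mulVec v i ≤ 7 / 8
    rw [sl_mul]
    fin_cases i
    · show 5 / 8 ≤ (Lo (cc l)).1.mulVec _ 0 ∧ (Lo (cc l)).1.mulVec _ 0 ≤ 7 / 8
      rw [Lo0, Up0]
      exact ⟨hk1, hk2⟩
    · show 5 / 8 ≤ (Lo (cc l)).1.mulVec _ 1 ∧ (Lo (cc l)).1.mulVec _ 1 ≤ 7 / 8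
      rw [Lo1, Up0, Up1]
      exact ⟨hl1, hl2⟩

lemma move (f : FreeGroup Bool →* SL)
    (hf : ∀ s : Bool, ∀ v : V, (∀ i, |v i| ≤ 1) →
      ∀ i, |(f (FreeGroup.of s)⁻¹).1.mulVec v i - v i| ≤ 1 / 80)
    (v : V) (hv : ∀ i, 5 / 8 ≤ v i ∧ v i ≤ 7 / 8) (k : ℕ) (hk : k ≤ 9) :
    ∀ g ∈ S ^ k, ∀ i, |(f g).1.mulVec v i - v i| ≤ k / 80 := by
  induction k with
  | zero =>
    intro g hg i
    rw [pow_zero, Finset.mem_one] at hg
    have h1 : f 1 = 1 := _root_.map_one f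
    rw [hg, h1, sl_one, sub_self, abs_zero]
    norm_num
  | succ k ih =>
    intro g hg i
    rw [pow_succ', Finset.mem_mul] at hg
    obtain ⟨s, hs, g', hg', rfl⟩ := hg
    have ih' := ih (by omega) g' hg'
    have h2 : f (s * g') = f s * f g' := _root_.map_mul f s g'
    rw [h2, sl_mul]
    set w := (f g').1.mulVec v with hw
    have hk8 : (k : ℝ) ≤ 8 := by
      have : k ≤ 8 := by omega
      exact_mod_cast this
    have hwle : ∀ i, |w i| ≤ 1 := by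
      intro j
      have h3 := abs_le.mp (ih' j)
      have h4 := hv j
      rw [abs_le]
      constructor <;> linarith [h3.1, h3.2, h4.1, h4.2]
    have hstep : |(f s).1.mulVec w i - w i| ≤ 1 / 80 := by
      simp only [S, Finset.mem_insert, Finset.mem_singleton] at hs
      rcases hs with rfl | rfl | rfl
      · have h1 : f 1 = 1 := _root_.map_one f
        rw [h1, sl_one, sub_self, abs_zero]
        norm_num
      · exact hf false w hwle i
      · exact hf true w hwle i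
    have h5 := abs_le.mp hstep
    have h6 := abs_le.mp (ih' i)
    push_cast
    rw [abs_le]
    constructor <;> linarith [h5.1, h5.2, h6.1, h6.2]

lemma exists_pkg (n : ℕ) (hn : n ≤ 9) : ∃ (f : FreeGroup Bool →* SL) (SS : Finset (FreeGroup Bool))
    (Φ : {v : V // v ≠ 0} × (Fin n → Bool) → {v : V // v ≠ 0}), Injective Φ ∧
      (∀ p, ∃ g ∈ SS, (Φ p).1 = (f g).1.mulVec p.1.1) ∧
      (∀ g ∈ SS, ∀ v : V, (∀ i, 5 / 8 ≤ v i ∧ v i ≤ 7 / 8) →
        ∀ i, |(f g).1.mulVec v i - v i| ≤ 9 / 80) := by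
  obtain ⟨f, hfree, hnear⟩ := exists_free (1 / 80) (by norm_num)
  let _inst : MulAction (FreeGroup Bool) {v : V // v ≠ 0} := act f
  obtain ⟨Φ, hΦ, hΦd⟩ := doubling_iter (X := {v : V // v ≠ 0}) (by
    intro γ hγ x hx
    have h1 := congrArg Subtype.val hx
    exact hfree γ hγ x.1 x.2 h1) n
  refine ⟨f, S ^ n, Φ, hΦ, ?_, ?_⟩
  · intro p
    obtain ⟨g, hg, h⟩ := hΦd p
    exact ⟨g, hg, congrArg Subtype.val h⟩
  · intro g hg v hv i
    have := move f hnear v hv n hn g hg i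
    have hn' : (n : ℝ) ≤ 9 := by exact_mod_cast hn
    linarith

theorem core : ∃ (D : Finset SL) (d : V → Bool → SL),
    (∀ v : V, (∀ i, 0 < v i ∧ v i < 1) → (∃ i, 1 / 2 ≤ v i) → ∀ b : Bool,
      d v b ∈ D ∧ ∀ i, 1 / 2 < (d v b).1.mulVec v i ∧ (d v b).1.mulVec v i < 1) ∧
    (∀ v : V, (∀ i, 0 < v i ∧ v i < 1) → (∃ i, 1 / 2 ≤ v i) →
      ∀ w : V, (∀ i, 0 < w i ∧ w i < 1) → (∃ i, 1 / 2 ≤ w i) → ∀ b c : Bool,
      (d v b).1.mulVec v = (d w c).1.mulVec w → v = w ∧ b = c) := by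
  classical
  obtain ⟨f, SS, Φ, hΦ, hΦd, hmove⟩ := exists_pkg 9 le_rfl
  -- an embedding
  have hcard : Fintype.card ((Bool × Fin 9 × Fin 9) × Bool) ≤ Fintype.card (Fin 9 → Bool) := by
    simp
  obtain ⟨e⟩ := Function.Embedding.nonempty_of_card_le hcard
  have hT : ∀ v : V, ∃ t, ((∀ i, 0 < v i ∧ v i < 1) ∧ (∃ i, 1 / 2 ≤ v i)) →
      ∀ i, 5 / 8 ≤ (T t).1.mulVec v i ∧ (T t).1.mulVec v i ≤ 7 / 8 := by
    intro v
    by_cases h : (∀ i, 0 < v i ∧ v i < 1) ∧ (∃ i, 1 / 2 ≤ v i)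
    · obtain ⟨t, ht⟩ := toBox v h.1 h.2
      exact ⟨t, fun _ => ht⟩
    · exact ⟨(false, 0, 0), fun h' => absurd h' h⟩
  choose t ht using hT
  choose γ hγS hγ using hΦd
  have hne : ∀ v : V, v ≠ 0 → (T (t v)).1.mulVec v ≠ 0 := fun v hv => sl_ne _ _ hv
  let d : V → Bool → SL := fun v b =>
    if h : v ≠ 0 then f (γ (⟨(T (t v)).1.mulVec v, hne v h⟩, e (t v, b))) * T (t v) else 1
  have hd : ∀ (v : V) (h : v ≠ 0) (b : Bool), (d v b).1.mulVec v =
      (Φ (⟨(T (t v)).1.mulVec v, hne v h⟩, e (t v, b))).1 := by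
    intro v h b
    have h1 : d v b = f (γ (⟨(T (t v)).1.mulVec v, hne v h⟩, e (t v, b))) * T (t v) := by
      simp only [d, dif_pos h]
    rw [h1, sl_mul, hγ]
  have hnz : ∀ v : V, (∀ i, 0 < v i ∧ v i < 1) → v ≠ 0 := by
    intro v hv h0
    have := (hv 0).1
    rw [h0] at this
    exact lt_irrefl _ this
  refine ⟨(SS ×ˢ (Finset.univ : Finset (Bool × Fin 9 × Fin 9))).image
    (fun p => f p.1 * T p.2), d, ?_, ?_⟩
  · intro v hv hv2 b
    have h0 := hnz v hv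
    constructor
    · rw [Finset.mem_image]
      refine ⟨(γ (⟨(T (t v)).1.mulVec v, hne v h0⟩, e (t v, b)), t v), ?_, ?_⟩
      · rw [Finset.mem_product]
        exact ⟨hγS _, Finset.mem_univ _⟩
      · simp only [d, dif_pos h0]
    · have h1 : d v b = f (γ (⟨(T (t v)).1.mulVec v, hne v h0⟩, e (t v, b))) * T (t v) := by
        simp only [d, dif_pos h0]
      intro i
      rw [h1, sl_mul]
      have h2 := hmove _ (hγS (⟨(T (t v)).1.mulVec v, hne v h0⟩, e (t v, b)))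
        ((T (t v)).1.mulVec v) (ht v ⟨hv, hv2⟩) i
      have h3 := ht v ⟨hv, hv2⟩ i
      have h4 := abs_le.mp h2
      constructor <;> linarith [h4.1, h4.2, h3.1, h3.2]
  · intro v hv hv2 w hw hw2 b c h
    have hv0 := hnz v hv
    have hw0 := hnz w hw
    rw [hd v hv0, hd w hw0] at h
    have h1 := hΦ (Subtype.ext h)
    simp only [Prod.mk.injEq, Subtype.mk.injEq, EmbeddingLike.apply_eq_iff_eq] at h1
    obtain ⟨h2, h3, h4⟩ := h1
    refine ⟨?_, h4⟩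
    rw [h3] at h2
    have h5 := congrArg ((T (t w))⁻¹).1.mulVec h2
    rwa [← sl_mul, ← sl_mul, inv_mul_cancel, sl_one, sl_one] at h5

lemma scale_exists (v : V) (hv : ∀ i, 0 < v i ∧ v i < 1) :
    ∃ k : ℕ, (∀ i, 0 < ((2:ℝ)^k • v) i ∧ ((2:ℝ)^k • v) i < 1) ∧ (∃ i, 1 / 2 ≤ ((2:ℝ)^k • v) i) := by
  classical
  have hex : ∃ k : ℕ, ∃ i, 1 / 2 ≤ (2:ℝ)^k * v i := by
    obtain ⟨k, hk⟩ := pow_unbounded_of_one_lt (1 / (v 0)) (by norm_num : (1:ℝ) < 2)
    refine ⟨k, 0, ?_⟩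
    have h0 := (hv 0).1
    rw [div_lt_iff₀ h0] at hk
    linarith
  refine ⟨Nat.find hex, ?_, Nat.find_spec hex⟩
  intro i
  simp only [Pi.smul_apply, smul_eq_mul]
  refine ⟨by have := (hv i).1; positivity, ?_⟩
  by_cases h0 : Nat.find hex = 0
  · rw [h0, pow_zero, one_mul]; exact (hv i).2
  · have h1 := Nat.find_min hex (m := Nat.find hex - 1) (by omega)
    push Not at h1
    have h2 := h1 i
    have h3 : (2:ℝ) ^ (Nat.find hex) = 2 * 2 ^ (Nat.find hex - 1) := by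
      rw [← pow_succ']
      congr 1
      omega
    rw [h3]
    linarith

theorem full : ∃ (D : Finset SL) (d : V → Bool → SL),
    (∀ v : V, (∀ i, 0 < v i ∧ v i < 1) → ∀ b : Bool,
      d v b ∈ D ∧ ∀ i, 0 < (d v b).1.mulVec v i ∧ (d v b).1.mulVec v i < 1) ∧
    (∀ v : V, (∀ i, 0 < v i ∧ v i < 1) →
      ∀ w : V, (∀ i, 0 < w i ∧ w i < 1) → ∀ b c : Bool,
      (d v b).1.mulVec v = (d w c).1.mulVec w → v = w ∧ b = c) := by
  classical
  obtain ⟨D, d, h1, h2⟩ := core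
  have hk : ∀ v : V, ∃ k : ℕ, (∀ i, 0 < v i ∧ v i < 1) →
      (∀ i, 0 < ((2:ℝ)^k • v) i ∧ ((2:ℝ)^k • v) i < 1) ∧ (∃ i, 1 / 2 ≤ ((2:ℝ)^k • v) i) := by
    intro v
    by_cases h : ∀ i, 0 < v i ∧ v i < 1
    · obtain ⟨k, hk⟩ := scale_exists v h
      exact ⟨k, fun _ => hk⟩
    · exact ⟨0, fun h' => absurd h' h⟩
  choose k hk using hk
  have hrel : ∀ v b, (d ((2:ℝ)^(k v) • v) b).1.mulVec ((2:ℝ)^(k v) • v) =
      (2:ℝ)^(k v) • (d ((2:ℝ)^(k v) • v) b).1.mulVec v := by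
    intro v b
    rw [Matrix.mulVec_smul]
  refine ⟨D, fun v b => d ((2:ℝ)^(k v) • v) b, ?_, ?_⟩
  · intro v hv b
    have h3 := h1 _ (hk v hv).1 (hk v hv).2 b
    refine ⟨h3.1, ?_⟩
    intro i
    have h4 := h3.2 i
    rw [hrel] at h4
    simp only [Pi.smul_apply, smul_eq_mul] at h4
    have hp : (1:ℝ) ≤ 2 ^ (k v) := one_le_pow₀ (by norm_num)
    set z := (d ((2:ℝ)^(k v) • v) b).1.mulVec v i with hz
    constructor
    · by_contra hneg
      push Not at hneg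
      nlinarith [h4.1]
    · by_contra hneg
      push Not at hneg
      nlinarith [h4.2]
  · intro v hv w hw b c h
    simp only at h
    have h3 := (h1 _ (hk v hv).1 (hk v hv).2 b).2 0
    have h4 := (h1 _ (hk w hw).1 (hk w hw).2 c).2 0
    rw [hrel] at h3 h4
    simp only [Pi.smul_apply, smul_eq_mul] at h3 h4
    rw [h] at h3
    set z := (d ((2:ℝ)^(k w) • w) c).1.mulVec w 0 with hz
    have hkk : k v = k w := by
      rcases lt_trichotomy (k v) (k w) with hlt | heq | hgt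
      · exfalso
        have h5 : (2:ℝ) ^ (k v) * 2 ≤ 2 ^ (k w) := by
          rw [← pow_succ]
          exact pow_le_pow_right₀ (by norm_num) hlt
        have hzpos : 0 < z := by
          by_contra hneg
          push Not at hneg
          have : (2:ℝ) ^ (k v) * z ≤ 0 := mul_nonpos_of_nonneg_of_nonpos (by positivity) hneg
          linarith [h3.1]
        nlinarith [h3.1, h4.2]
      · exact heq
      · exfalso
        have h5 : (2:ℝ) ^ (k w) * 2 ≤ 2 ^ (k v) := by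
          rw [← pow_succ]
          exact pow_le_pow_right₀ (by norm_num) hgt
        have hzpos : 0 < z := by
          by_contra hneg
          push Not at hneg
          have : (2:ℝ) ^ (k v) * z ≤ 0 := mul_nonpos_of_nonneg_of_nonpos (by positivity) hneg
          linarith [h3.1]
        nlinarith [h3.2, h4.1]
    have h6 := h2 _ (hk v hv).1 (hk v hv).2 _ (hk w hw).1 (hk w hw).2 b c (by
      rw [hrel, hrel, h, hkk])
    refine ⟨?_, h6.2⟩
    have h7 := h6.1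
    rw [hkk] at h7
    exact smul_right_injective V (by positivity : (2:ℝ) ^ (k w) ≠ 0) h7

end Pool.Agent.Y681.Para
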