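import Mathlib

set_option autoImplicit false

namespace Pool.Agent.Y681.Para

open FreeGroup Function
open scoped Pointwise

lemma toWord_inv_mul (γ : FreeGroup Bool) (s : Bool) (h : γ.toWord.head? ≠ some (s, true)) :
    ((FreeGroup.of s)⁻¹ * γ).toWord = (s, false) :: γ.toWord := by
  have hred : IsReduced ((s, false) :: γ.toWord) := by
    cases hL : γ.toWord with
    | nil => exact IsReduced.singleton
    | cons b L =>
      have h2 : IsReduced (b :: L) := hL ▸ isReduced_toWord
      rw [isReduced_cons_cons]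
      refine ⟨fun h1 => ?_, h2⟩
      rw [hL] at h
      rcases b with ⟨b1, b2⟩
      simp only at h1
      subst h1
      cases b2 with
      | false => rfl
      | true => exact absurd rfl h
  have h3 : (FreeGroup.of s)⁻¹ * γ = FreeGroup.mk ((s, false) :: γ.toWord) := by
    conv_lhs => rw [← FreeGroup.mk_toWord (x := γ)]
    rfl
  rw [h3, FreeGroup.toWord_mk, hred.reduce_eq]

variable {X : Type*} [MulAction (FreeGroup Bool) X]

theorem doubling (hfree : ∀ γ : FreeGroup Bool, γ ≠ 1 → ∀ x : X, γ • x ≠ x) :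
    ∃ Φ : X × Bool → X, Injective Φ ∧
      ∀ p, Φ p = p.1 ∨ Φ p = (FreeGroup.of p.2)⁻¹ • p.1 := by
  classical
  let base : X → X := fun x =>
    (Quotient.out (Quotient.mk'' x : MulAction.orbitRel.Quotient (FreeGroup Bool) X))
  have H : ∀ x : X, ∃ γ : FreeGroup Bool, γ • base x = x := by
    intro x
    have h1 : (Quotient.mk'' (base x) : MulAction.orbitRel.Quotient (FreeGroup Bool) X)
        = Quotient.mk'' x := Quotient.out_eq' _
    have h2 := Quotient.eq''.mp h1
    have h3 : MulAction.orbitRel (FreeGroup Bool) X (base x) x := h2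
    rw [MulAction.orbitRel_apply, MulAction.mem_orbit_iff] at h3
    obtain ⟨γ, hγ⟩ := h3
    exact ⟨γ⁻¹, by rw [← hγ, inv_smul_smul]⟩
  choose c hc using H
  have hbase : ∀ (g : FreeGroup Bool) (x : X), base (g • x) = base x := by
    intro g x
    have : (Quotient.mk'' (g • x) : MulAction.orbitRel.Quotient (FreeGroup Bool) X)
        = Quotient.mk'' x := by
      apply Quotient.sound'
      exact MulAction.mem_orbit x g
    simp only [base, this]
  have hcg : ∀ (g : FreeGroup Bool) (x : X), c (g • x) = g * c x := by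
    intro g x
    by_contra hne
    have h1 : c (g • x) • base x = g • x := by
      have := hc (g • x)
      rwa [hbase] at this
    have h2 : (g * c x) • base x = g • x := by rw [mul_smul, hc x]
    have h3 : ((g * c x)⁻¹ * c (g • x)) • base x = base x := by
      rw [mul_smul, h1, ← h2, inv_smul_smul]
    refine hfree _ ?_ _ h3
    intro h4
    exact hne (by rwa [inv_mul_eq_one, eq_comm] at h4)
  let Φ : X × Bool → X := fun p =>
    if (c p.1).toWord.head? = some (p.2, true) then p.1 else (FreeGroup.of p.2)⁻¹ • p.1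
  have hΦ1 : ∀ p : X × Bool, (c p.1).toWord.head? = some (p.2, true) → Φ p = p.1 := by
    intro p h
    simp only [Φ, if_pos h]
  have hΦ2 : ∀ p : X × Bool, (c p.1).toWord.head? ≠ some (p.2, true) →
      Φ p = (FreeGroup.of p.2)⁻¹ • p.1 := by
    intro p h
    simp only [Φ, if_neg h]
  have hhead : ∀ p : X × Bool, (c (Φ p)).toWord.head? =
      some (p.2, decide ((c p.1).toWord.head? = some (p.2, true))) := by
    intro p
    by_cases h : (c p.1).toWord.head? = some (p.2, true)
    · rw [hΦ1 p h]; simp [h]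
    · rw [hΦ2 p h, hcg, toWord_inv_mul _ _ h]; simp [h]
  refine ⟨Φ, ?_, ?_⟩
  · rintro ⟨x, s⟩ ⟨y, t⟩ hxy
    have h1 := hhead (x, s)
    have h2 := hhead (y, t)
    rw [hxy, h2] at h1
    simp only [Option.some.injEq, Prod.mk.injEq, decide_eq_decide] at h1
    obtain ⟨h3, h4⟩ := h1
    subst h3
    by_cases h : (c x).toWord.head? = some (t, true)
    · have h' := h4.mpr h
      rw [hΦ1 (x, t) h, hΦ1 (y, t) h'] at hxy
      simp only at hxy
      rw [hxy]
    · have h' : (c y).toWord.head? ≠ some (t, true) := fun h5 => h (h4.mp h5)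
      rw [hΦ2 (x, t) h, hΦ2 (y, t) h'] at hxy
      have : x = y := MulAction.injective (FreeGroup.of t)⁻¹ hxy
      rw [this]
  · intro p
    by_cases h : (c p.1).toWord.head? = some (p.2, true)
    · exact Or.inl (hΦ1 p h)
    · exact Or.inr (hΦ2 p h)

/-- the displacements of one doubling step -/
def S : Finset (FreeGroup Bool) := {1, (FreeGroup.of false)⁻¹, (FreeGroup.of true)⁻¹}

theorem doubling_iter (hfree : ∀ γ : FreeGroup Bool, γ ≠ 1 → ∀ x : X, γ • x ≠ x) (n : ℕ) :
    ∃ Φ : X × (Fin n → Bool) → X, Injective Φ ∧ ∀ p, ∃ g ∈ S ^ n, Φ p = g • p.1 := by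
  obtain ⟨Φ, hΦ, hΦd⟩ := doubling hfree
  induction n with
  | zero =>
    refine ⟨fun p => p.1, ?_, fun p => ⟨1, by simp, by simp⟩⟩
    rintro ⟨x, a⟩ ⟨y, b⟩ h
    simp only at h
    subst h
    congr
    exact Subsingleton.elim _ _
  | succ n ih =>
    obtain ⟨Ψ, hΨ, hΨd⟩ := ih
    refine ⟨fun p => Φ (Ψ (p.1, fun i => p.2 i.succ), p.2 0), ?_, ?_⟩
    · rintro ⟨x, a⟩ ⟨y, b⟩ h
      have h1 := hΦ h
      simp only [Prod.mk.injEq] at h1
      have h2 := hΨ h1.1
      simp only [Prod.mk.injEq] at h2
      obtain ⟨h3, h4⟩ := h2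
      subst h3
      congr
      funext i
      refine Fin.cases h1.2 (fun j => congrFun h4 j) i
    · rintro ⟨x, a⟩
      obtain ⟨g, hg, hgx⟩ := hΨd (x, fun i => a i.succ)
      rcases hΦd (Ψ (x, fun i => a i.succ), a 0) with h | h
      · refine ⟨1 * g, ?_, ?_⟩
        · rw [pow_succ']
          exact Finset.mul_mem_mul (by simp [S]) hg
        · rw [one_mul]
          simp only at h ⊢
          rw [h, hgx]
      · refine ⟨(FreeGroup.of (a 0))⁻¹ * g, ?_, ?_⟩
        · rw [pow_succ']
          refine Finset.mul_mem_mul ?_ hg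
          cases a 0 <;> simp [S]
        · simp only at h ⊢
          rw [h, hgx, mul_smul]

end Pool.Agent.Y681.Para
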