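import Mathlib

set_option autoImplicit false

namespace Pool.Agent.Y681.Para

open Filter Topology

lemma gauss_pow (m : ℕ) : ∃ X Y : ℤ,
    (5 : ℂ) ^ (m + 1) * (((3 : ℂ) + 4 * Complex.I) / 5) ^ (m + 1) = X + Y * Complex.I ∧
      (X : ZMod 5) = 3 ∧ (Y : ZMod 5) = 4 := by
  induction m with
  | zero =>
    refine ⟨3, 4, ?_, by norm_cast, by norm_cast⟩
    push_cast
    ring
  | succ m ih =>
    obtain ⟨X, Y, h, hX, hY⟩ := ih
    refine ⟨3 * X - 4 * Y, 4 * X + 3 * Y, ?_, ?_, ?_⟩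
    · have e : (5 : ℂ) ^ (m + 1 + 1) * (((3 : ℂ) + 4 * Complex.I) / 5) ^ (m + 1 + 1) =
          ((5 : ℂ) ^ (m + 1) * (((3 : ℂ) + 4 * Complex.I) / 5) ^ (m + 1)) *
            (3 + 4 * Complex.I) := by
        rw [pow_succ (5 : ℂ), pow_succ (((3 : ℂ) + 4 * Complex.I) / 5) (m + 1)]
        ring
      rw [e, h]
      push_cast
      have := Complex.I_sq
      linear_combination (4 * (Y : ℂ)) * this
    · push_cast
      rw [hX, hY]
      decide
    · push_cast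
      rw [hX, hY]
      decide

theorem near (η : ℝ) (hη : 0 < η) : ∃ (m : ℕ) (X Y : ℤ) (x y : ℝ), m ≠ 0 ∧ x ^ 2 + y ^ 2 = 1 ∧
    5 ^ m * x = X ∧ 5 ^ m * y = Y ∧ (X : ZMod 5) = 3 ∧ (Y : ZMod 5) = 4 ∧
    |x - 1| < η ∧ |y| < η := by
  set z : ℂ := ((3 : ℂ) + 4 * Complex.I) / 5 with hz
  have hz1 : ‖z‖ = 1 := by
    rw [hz, norm_div]
    have h1 : ‖(3 : ℂ) + 4 * Complex.I‖ = 5 := by
      have h2 : ‖(3 : ℂ) + 4 * Complex.I‖ ^ 2 = 25 := by
        rw [← Complex.normSq_eq_norm_sq]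
        have : ((3 : ℂ) + 4 * Complex.I) = ((3 : ℝ) : ℂ) + ((4 : ℝ) : ℂ) * Complex.I := by
          push_cast; ring
        rw [this, Complex.normSq_add_mul_I]
        norm_num
      have h3 : (0 : ℝ) ≤ ‖(3 : ℂ) + 4 * Complex.I‖ := norm_nonneg _
      nlinarith
    rw [h1]
    simp
  have hcomp : IsCompact (Metric.sphere (0 : ℂ) 1) := isCompact_sphere _ _
  obtain ⟨w, _, φ, hφ, hlim⟩ := hcomp.tendsto_subseq (x := fun n : ℕ => z ^ n)
    (fun n => by simp [hz1])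
  have hc := hlim.cauchySeq
  rw [Metric.cauchySeq_iff] at hc
  obtain ⟨N, hN⟩ := hc η hη
  have h1 := hN (N + 1) (by omega) N le_rfl
  have hlt : φ N < φ (N + 1) := hφ (by omega)
  obtain ⟨m, hm⟩ : ∃ m, φ (N + 1) = φ N + (m + 1) := ⟨φ (N + 1) - φ N - 1, by omega⟩
  have h2 : ‖z ^ (m + 1) - 1‖ < η := by
    simp only [Function.comp_apply] at h1
    rw [dist_eq_norm, hm, pow_add] at h1
    have e : z ^ φ N * z ^ (m + 1) - z ^ φ N = z ^ φ N * (z ^ (m + 1) - 1) := by ring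
    rw [e, norm_mul, norm_pow, hz1, one_pow, one_mul] at h1
    exact h1
  obtain ⟨X, Y, hXY, hX, hY⟩ := gauss_pow m
  rw [← hz] at hXY
  refine ⟨m + 1, X, Y, (z ^ (m + 1)).re, (z ^ (m + 1)).im, by omega, ?_, ?_, ?_, hX, hY, ?_, ?_⟩
  · have : ‖z ^ (m + 1)‖ ^ 2 = 1 := by rw [norm_pow, hz1]; simp
    rw [← Complex.normSq_eq_norm_sq, Complex.normSq_apply] at this
    nlinarith
  · have h3 := congrArg Complex.re hXY
    have h4 : ((5 : ℂ) ^ (m + 1) * z ^ (m + 1)).re = 5 ^ (m + 1) * (z ^ (m + 1)).re := by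
      have : (5 : ℂ) ^ (m + 1) = (((5 : ℝ) ^ (m + 1) : ℝ) : ℂ) := by push_cast; rfl
      rw [this, Complex.re_ofReal_mul]
    rw [h4] at h3
    simpa using h3
  · have h3 := congrArg Complex.im hXY
    have h4 : ((5 : ℂ) ^ (m + 1) * z ^ (m + 1)).im = 5 ^ (m + 1) * (z ^ (m + 1)).im := by
      have : (5 : ℂ) ^ (m + 1) = (((5 : ℝ) ^ (m + 1) : ℝ) : ℂ) := by push_cast; rfl
      rw [this, Complex.im_ofReal_mul]
    rw [h4] at h3
    simpa using h3
  · have := Complex.abs_re_le_norm (z ^ (m + 1) - 1)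
    simp only [Complex.sub_re, Complex.one_re] at this
    linarith
  · have := Complex.abs_im_le_norm (z ^ (m + 1) - 1)
    simp only [Complex.sub_im, Complex.one_im, sub_zero] at this
    linarith

end Pool.Agent.Y681.Para
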