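import Mathlib

set_option autoImplicit false

namespace Pool.Agent.Y681.Para

open FreeGroup Matrix

lemma five_zero : ((5 : ZMod 5)) = 0 := by decide

/-- image directions mod 5 -/
def uu : Bool × Bool → (Fin 2 → ZMod 5)
  | (false, true) => ![1, 3]
  | (false, false) => ![1, 2]
  | (true, true) => ![2, 3]
  | (true, false) => ![0, 2]

/-- functionals mod 5 -/
def ph : Bool × Bool → (Fin 2 → ZMod 5)
  | (false, true) => ![3, 1]
  | (false, false) => ![3, 4]
  | (true, true) => ![3, 0]
  | (true, false) => ![3, 3]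

/-- the pairing -/
def pr (l l' : Bool × Bool) : ZMod 5 := ph l 0 * uu l' 0 + ph l 1 * uu l' 1

lemma pr_ne : ∀ l l' : Bool × Bool, (l.1 = l'.1 → l.2 = l'.2) → pr l l' ≠ 0 := by decide

lemma pr_eq : ∀ l l' : Bool × Bool, pr l l' = 0 → l'.1 = l.1 ∧ l'.2 = !l.2 := by decide

/-- letter matrices mod 5 -/
def mz (l : Bool × Bool) : Matrix (Fin 2) (Fin 2) (ZMod 5) := vecMulVec (uu l) (ph l)

lemma mz_mul (l a b : Bool × Bool) (c : ZMod 5) :
    mz l * (c • vecMulVec (uu a) (ph b)) = (c * pr l a) • vecMulVec (uu l) (ph b) := by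
  ext i j
  simp only [mz, Matrix.mul_apply, Matrix.smul_apply, vecMulVec_apply, Fin.sum_univ_two, pr,
    smul_eq_mul]
  ring

lemma prod_mz (l : Bool × Bool) (L : List (Bool × Bool)) (h : IsReduced (l :: L)) :
    ∃ c : ZMod 5, c ≠ 0 ∧ ((l :: L).map mz).prod =
      c • vecMulVec (uu l) (ph ((l :: L).getLast (by simp))) := by
  have : Fact (Nat.Prime 5) := ⟨by norm_num⟩
  induction L generalizing l with
  | nil => exact ⟨1, one_ne_zero, by simp [mz]⟩
  | cons a L ih =>
    rw [isReduced_cons_cons] at h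
    obtain ⟨c, hc, hc2⟩ := ih a h.2
    refine ⟨c * pr l a, mul_ne_zero hc (pr_ne l a h.1), ?_⟩
    rw [List.map_cons, List.prod_cons, hc2, mz_mul]
    rw [List.getLast_cons (by simp : a :: L ≠ [])]

section

variable (X Y : ℤ)

/-- integer letter matrices -/
def mi : Bool × Bool → Matrix (Fin 2) (Fin 2) ℤ
  | (false, true) => !![X, -Y; Y, X]
  | (false, false) => !![X, Y; -Y, X]
  | (true, true) => !![1, 2; 0, 1] * !![X, -Y; Y, X] * !![1, -2; 0, 1]
  | (true, false) => !![1, 2; 0, 1] * !![X, Y; -Y, X] * !![1, -2; 0, 1]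

lemma mi_mod (hX : (X : ZMod 5) = 3) (hY : (Y : ZMod 5) = 4) (l : Bool × Bool) :
    (mi X Y l).map (Int.cast : ℤ → ZMod 5) = mz l := by
  rcases l with ⟨a, b⟩
  cases a <;> cases b <;> ext i j <;> fin_cases i <;> fin_cases j <;>
    simp [mi, mz, vecMulVec_apply, uu, ph, hX, hY] <;> decide

end

/-- rotation matrix -/
noncomputable def rot (x y : ℝ) (h : x ^ 2 + y ^ 2 = 1) : SpecialLinearGroup (Fin 2) ℝ :=
  ⟨!![x, -y; y, x], by rw [Matrix.det_fin_two_of]; linarith [h]⟩

/-- the shear by 2 -/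
def shr : SpecialLinearGroup (Fin 2) ℝ := ⟨!![1, 2; 0, 1], by simp⟩

/-- generators -/
noncomputable def gen (x y : ℝ) (h : x ^ 2 + y ^ 2 = 1) (s : Bool) :
    SpecialLinearGroup (Fin 2) ℝ :=
  cond s (shr * rot x y h * shr⁻¹) (rot x y h)

/-- letters -/
noncomputable def gl (x y : ℝ) (h : x ^ 2 + y ^ 2 = 1) (l : Bool × Bool) :
    SpecialLinearGroup (Fin 2) ℝ :=
  cond l.2 (gen x y h l.1) (gen x y h l.1)⁻¹

lemma gl_mi (X Y : ℤ) (m : ℕ) (x y : ℝ) (h : x ^ 2 + y ^ 2 = 1)
    (hx : 5 ^ m * x = X) (hy : 5 ^ m * y = Y) (l : Bool × Bool) :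
    ((5 : ℝ) ^ m) • (gl x y h l : Matrix (Fin 2) (Fin 2) ℝ) =
      (mi X Y l).map (Int.cast : ℤ → ℝ) := by
  have r1 : (rot x y h : SpecialLinearGroup (Fin 2) ℝ).1 = !![x, -y; y, x] := rfl
  have r2 : ((rot x y h)⁻¹ : SpecialLinearGroup (Fin 2) ℝ).1 = !![x, y; -y, x] := by
    rw [Matrix.SpecialLinearGroup.coe_inv, r1, Matrix.adjugate_fin_two_of, neg_neg]
  have r3 : (shr : SpecialLinearGroup (Fin 2) ℝ).1 = !![1, 2; 0, 1] := rfl
  have r4 : ((shr)⁻¹ : SpecialLinearGroup (Fin 2) ℝ).1 = !![1, -2; 0, 1] := by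
    rw [Matrix.SpecialLinearGroup.coe_inv, r3, Matrix.adjugate_fin_two_of, neg_zero]
  rcases l with ⟨a, b⟩
  cases a <;> cases b
  · have : gl x y h (false, false) = (rot x y h)⁻¹ := rfl
    rw [this, r2]
    ext i j
    fin_cases i <;> fin_cases j <;> simp [mi, ← hx, ← hy]
  · have : gl x y h (false, true) = rot x y h := rfl
    rw [this, r1]
    ext i j
    fin_cases i <;> fin_cases j <;> simp [mi, ← hx, ← hy]
  · have : gl x y h (true, false) = shr * (rot x y h)⁻¹ * shr⁻¹ := by
      show (shr * rot x y h * shr⁻¹)⁻¹ = _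
      group
    have e : (shr * (rot x y h)⁻¹ * shr⁻¹ : SpecialLinearGroup (Fin 2) ℝ).1 =
      (shr : SpecialLinearGroup (Fin 2) ℝ).1 * ((rot x y h)⁻¹).1 * (shr⁻¹).1 := rfl
    rw [this, e, r2, r3, r4]
    ext i j
    fin_cases i <;> fin_cases j <;>
      simp [mi, ← hx, ← hy, Matrix.mul_apply, Fin.sum_univ_two] <;> ring
  · have : gl x y h (true, true) = shr * rot x y h * shr⁻¹ := rfl
    have e : (shr * rot x y h * shr⁻¹ : SpecialLinearGroup (Fin 2) ℝ).1 =
      (shr : SpecialLinearGroup (Fin 2) ℝ).1 * (rot x y h).1 * (shr⁻¹).1 := rfl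
    rw [this, e, r1, r3, r4]
    ext i j
    fin_cases i <;> fin_cases j <;>
      simp [mi, ← hx, ← hy, Matrix.mul_apply, Fin.sum_univ_two] <;> ring

lemma prod_gl (X Y : ℤ) (m : ℕ) (x y : ℝ) (h : x ^ 2 + y ^ 2 = 1)
    (hx : 5 ^ m * x = X) (hy : 5 ^ m * y = Y) (L : List (Bool × Bool)) :
    (((5 : ℝ) ^ m) ^ L.length) • ((L.map (gl x y h)).prod : SpecialLinearGroup (Fin 2) ℝ).1 =
      ((L.map (mi X Y)).prod).map (Int.cast : ℤ → ℝ) := by
  induction L with
  | nil =>
    ext i j
    fin_cases i <;> fin_cases j <;> simp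
  | cons l L ih =>
    have e : ((List.map (mi X Y) (l :: L)).prod).map (Int.cast : ℤ → ℝ) =
        (mi X Y l).map (Int.cast : ℤ → ℝ) * ((L.map (mi X Y)).prod).map (Int.cast : ℤ → ℝ) := by
      rw [List.map_cons, List.prod_cons]
      exact Matrix.map_mul (f := Int.castRingHom ℝ)
    rw [e, ← ih, ← gl_mi X Y m x y h hx hy l]
    rw [List.map_cons, List.prod_cons, List.length_cons, pow_succ']
    have e2 : (gl x y h l * (L.map (gl x y h)).prod : SpecialLinearGroup (Fin 2) ℝ).1 =
        (gl x y h l).1 * ((L.map (gl x y h)).prod : SpecialLinearGroup (Fin 2) ℝ).1 := rfl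
    rw [e2, Matrix.smul_mul, Matrix.mul_smul, smul_smul]

lemma trace_of_fix (g : SpecialLinearGroup (Fin 2) ℝ) (v : Fin 2 → ℝ) (hv : v ≠ 0)
    (h : g.1.mulVec v = v) : g.1 0 0 + g.1 1 1 = 2 := by
  have h1 : (g.1 - 1).mulVec v = 0 := by rw [Matrix.sub_mulVec, h, Matrix.one_mulVec, sub_self]
  have h2 : (g.1 - 1).det = 0 := by
    by_contra hne
    exact hv (Matrix.eq_zero_of_mulVec_eq_zero hne h1)
  have h3 : g.1.det = 1 := g.2
  rw [Matrix.det_fin_two] at h2 h3
  simp at h2
  linarith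

lemma gl_inv (x y : ℝ) (h : x ^ 2 + y ^ 2 = 1) (l l' : Bool × Bool)
    (h1 : l'.1 = l.1) (h2 : l'.2 = !l.2) : gl x y h l' = (gl x y h l)⁻¹ := by
  rcases l with ⟨a, b⟩
  rcases l' with ⟨a', b'⟩
  simp only at h1 h2
  subst h1 h2
  cases b <;> simp [gl]

theorem nofix (X Y : ℤ) (m : ℕ) (hm : m ≠ 0) (x y : ℝ) (h : x ^ 2 + y ^ 2 = 1)
    (hx : 5 ^ m * x = X) (hy : 5 ^ m * y = Y)
    (hX : (X : ZMod 5) = 3) (hY : (Y : ZMod 5) = 4) :
    ∀ (r : ℕ) (L : List (Bool × Bool)), L.length = r → L ≠ [] → IsReduced L →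
      ∀ v : Fin 2 → ℝ, v ≠ 0 →
      ((L.map (gl x y h)).prod : SpecialLinearGroup (Fin 2) ℝ).1.mulVec v ≠ v := by
  have : Fact (Nat.Prime 5) := ⟨by norm_num⟩
  intro r
  induction r using Nat.strong_induction_on with
  | _ r ih =>
    intro L hLr hL hred v hv hfix
    obtain ⟨l, L1, rfl⟩ := List.exists_cons_of_ne_nil hL
    obtain ⟨c, hc, hprod⟩ := prod_mz l L1 hred
    set z := (l :: L1).getLast hL with hz
    -- the trace
    have htr := trace_of_fix _ v hv hfix
    have hpg := prod_gl X Y m x y h hx hy (l :: L1)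
    have e00 := congrFun (congrFun hpg 0) 0
    have e11 := congrFun (congrFun hpg 1) 1
    simp only [Matrix.smul_apply, Matrix.map_apply, smul_eq_mul] at e00 e11
    have htrR : (((((l :: L1).map (mi X Y)).prod 0 0 + ((l :: L1).map (mi X Y)).prod 1 1 : ℤ)) : ℝ)
        = (((5 : ℤ) ^ m) ^ (l :: L1).length * 2 : ℤ) := by
      push_cast
      rw [← e00, ← e11, ← mul_add, htr]
    have htrZ : ((l :: L1).map (mi X Y)).prod 0 0 + ((l :: L1).map (mi X Y)).prod 1 1
        = ((5 : ℤ) ^ m) ^ (l :: L1).length * 2 := by exact_mod_cast htrR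
    have hmap : (((l :: L1).map (mi X Y)).prod).map (Int.cast : ℤ → ZMod 5)
        = ((l :: L1).map mz).prod := by
      have := map_list_prod ((Int.castRingHom (ZMod 5)).mapMatrix (m := Fin 2))
        ((l :: L1).map (mi X Y))
      rw [List.map_map] at this
      have e3 : ((Int.castRingHom (ZMod 5)).mapMatrix (m := Fin 2)) ∘ (mi X Y) = mz := by
        funext t
        exact mi_mod X Y hX hY t
      rw [e3] at this
      exact this
    have h00 := congrFun (congrFun hmap 0) 0
    have h11 := congrFun (congrFun hmap 1) 1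
    rw [hprod] at h00 h11
    simp only [Matrix.map_apply, Matrix.smul_apply, vecMulVec_apply, smul_eq_mul] at h00 h11
    have hzero : c * pr z l = 0 := by
      have h4 : ((((l :: L1).map (mi X Y)).prod 0 0 + ((l :: L1).map (mi X Y)).prod 1 1 : ℤ) :
          ZMod 5) = 0 := by
        rw [htrZ]
        push_cast
        rw [five_zero, zero_pow hm, List.length_cons, zero_pow (Nat.succ_ne_zero _), zero_mul]
      push_cast at h4
      rw [h00, h11] at h4
      rw [← h4, pr]
      ring
    have hpz : pr z l = 0 := by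
      rcases mul_eq_zero.mp hzero with h6 | h6
      · exact absurd h6 hc
      · exact h6
    obtain ⟨hz1, hz2⟩ := pr_eq z l hpz
    -- so l is the inverse of the last letter
    cases hL1 : L1 with
    | nil =>
      subst hL1
      simp at hz
      rw [hz] at hz2
      cases hl : l.2 <;> rw [hl] at hz2 <;> exact absurd hz2 (by decide)
    | cons b L2 =>
      have hne : L1 ≠ [] := by rw [hL1]; simp
      have hz' : z = L1.getLast hne := by rw [hz, List.getLast_cons hne]
      obtain ⟨L3, hL3⟩ : ∃ L3, L1 = L3 ++ [z] := ⟨L1.dropLast, by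
        rw [hz', List.dropLast_append_getLast]⟩
      have hL3ne : L3 ≠ [] := by
        rintro rfl
        rw [List.nil_append] at hL3
        rw [hL3, isReduced_cons_cons] at hred
        have := hred.1 hz1
        rw [hz2] at this
        cases hl : z.2 <;> rw [hl] at this <;> exact absurd this (by decide)
      have hL3red : IsReduced L3 := by
        have h20 : IsReduced ([l] ++ (L3 ++ [z])) := by
          rw [← hL3]
          exact hred
        exact (List.IsChain.right_of_append h20).left_of_append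
      have hlen : L3.length < r := by
        rw [← hLr, hL3]
        simp
      have hgl : gl x y h l = (gl x y h z)⁻¹ := gl_inv x y h z l hz1 hz2
      have hv' : (gl x y h z).1.mulVec v ≠ 0 := by
        intro h0
        apply hv
        have h7 := congrArg ((gl x y h z)⁻¹).1.mulVec h0
        rw [Matrix.mulVec_mulVec, Matrix.mulVec_zero] at h7
        have h8 : ((gl x y h z)⁻¹).1 * (gl x y h z).1 = 1 := by
          have : ((gl x y h z)⁻¹ * gl x y h z).1 = 1 := by rw [inv_mul_cancel]; rfl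
          exact this
        rwa [h8, Matrix.one_mulVec] at h7
      refine ih L3.length hlen L3 rfl hL3ne hL3red _ hv' ?_
      rw [hL3] at hfix
      rw [List.map_cons, List.map_append, List.prod_cons, List.prod_append] at hfix
      simp only [List.map_cons, List.map_nil, List.prod_cons, List.prod_nil, mul_one] at hfix
      rw [hgl] at hfix
      have h9 := congrArg (gl x y h z).1.mulVec hfix
      rw [Matrix.mulVec_mulVec] at h9
      have h10 : (gl x y h z).1 * ((gl x y h z)⁻¹ * ((L3.map (gl x y h)).prod * gl x y h z)).1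
          = (L3.map (gl x y h)).prod.1 * (gl x y h z).1 := by
        have : (gl x y h z * ((gl x y h z)⁻¹ * ((L3.map (gl x y h)).prod * gl x y h z))).1
          = ((L3.map (gl x y h)).prod * gl x y h z).1 := by rw [mul_inv_cancel_left]
        exact this
      rw [h10, ← Matrix.mulVec_mulVec] at h9
      exact h9

end Pool.Agent.Y681.Para
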