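import Pool.Agent.Y681.Para.Free
import Pool.Agent.Y681.Para.Ping
import Pool.Agent.Y681.Para.Near

set_option autoImplicit false

namespace Pool.Agent.Y681.Para

open Matrix Function
open scoped Pointwise

abbrev V := Fin 2 → ℝ
abbrev SL := SpecialLinearGroup (Fin 2) ℝ

lemma sl_mul (a b : SL) (v : V) : (a * b).1.mulVec v = a.1.mulVec (b.1.mulVec v) := by
  rw [Matrix.mulVec_mulVec]
  rfl

lemma sl_one (v : V) : (1 : SL).1.mulVec v = v := by
  show (1 : Matrix (Fin 2) (Fin 2) ℝ).mulVec v = v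
  exact Matrix.one_mulVec _

lemma sl_ne (a : SL) (v : V) (h : v ≠ 0) : a.1.mulVec v ≠ 0 := by
  intro h0
  apply h
  have h7 : (a⁻¹).1.mulVec (a.1.mulVec v) = v := by
    rw [← sl_mul, inv_mul_cancel, sl_one]
  rw [← h7, h0, Matrix.mulVec_zero]

/-- the action of the free group on nonzero vectors -/
@[reducible]
noncomputable def act (f : FreeGroup Bool →* SL) : MulAction (FreeGroup Bool) {v : V // v ≠ 0} where
  smul g v := ⟨(f g).1.mulVec v.1, sl_ne _ _ v.2⟩
  one_smul v := by
    apply Subtype.ext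
    show (f 1).1.mulVec v.1 = v.1
    have : f 1 = 1 := _root_.map_one f
    rw [this]
    exact sl_one _
  mul_smul a b v := by
    apply Subtype.ext
    show (f (a * b)).1.mulVec v.1 = (f a).1.mulVec ((f b).1.mulVec v.1)
    have : f (a * b) = f a * f b := _root_.map_mul f a b
    rw [this, sl_mul]

theorem exists_free (η : ℝ) (hη : 0 < η) : ∃ (f : FreeGroup Bool →* SL),
    (∀ g : FreeGroup Bool, g ≠ 1 → ∀ v : V, v ≠ 0 → (f g).1.mulVec v ≠ v) ∧
    (∀ s : Bool, ∀ v : V, (∀ i, |v i| ≤ 1) →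
      ∀ i, |(f (FreeGroup.of s)⁻¹).1.mulVec v i - v i| ≤ η) := by
  obtain ⟨m, X, Y, x, y, hm, h, hx, hy, hX, hY, hx1, hy1⟩ := near (η / 8) (by positivity)
  refine ⟨FreeGroup.lift (gen x y h), ?_, ?_⟩
  · intro g hg v hv
    have h1 : FreeGroup.lift (gen x y h) g = (g.toWord.map (gl x y h)).prod := by
      conv_lhs => rw [← FreeGroup.mk_toWord (x := g)]
      rw [FreeGroup.lift_mk]
      rfl
    rw [h1]
    refine nofix X Y m hm x y h hx hy hX hY _ g.toWord rfl ?_ FreeGroup.isReduced_toWord v hv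
    intro h2
    exact hg (FreeGroup.toWord_eq_nil_iff.mp h2)
  · intro s v hv i
    have r1 : (rot x y h : SL).1 = !![x, -y; y, x] := rfl
    have r2 : ((rot x y h)⁻¹ : SL).1 = !![x, y; -y, x] := by
      rw [Matrix.SpecialLinearGroup.coe_inv, r1, Matrix.adjugate_fin_two_of, neg_neg]
    have r3 : (shr : SL).1 = !![1, 2; 0, 1] := rfl
    have r4 : ((shr)⁻¹ : SL).1 = !![1, -2; 0, 1] := by
      rw [Matrix.SpecialLinearGroup.coe_inv, r3, Matrix.adjugate_fin_two_of, neg_zero]
    have h5 : FreeGroup.lift (gen x y h) (FreeGroup.of s)⁻¹ = (gen x y h s)⁻¹ := by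
      have h6 : FreeGroup.lift (gen x y h) (FreeGroup.of s)⁻¹ =
          (FreeGroup.lift (gen x y h) (FreeGroup.of s))⁻¹ := _root_.map_inv _ _
      rw [h6, FreeGroup.lift_apply_of]
    rw [h5]
    have hv0 := hv 0
    have hv1 := hv 1
    have b1 : |(x - 1) * v 0| ≤ η / 8 := by
      rw [abs_mul]
      calc |x - 1| * |v 0| ≤ (η / 8) * 1 := by gcongr
        _ = η / 8 := by ring
    have b2 : |y * v 1| ≤ η / 8 := by
      rw [abs_mul]
      calc |y| * |v 1| ≤ (η / 8) * 1 := by gcongr
        _ = η / 8 := by ring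
    have b3 : |(x - 1) * v 1| ≤ η / 8 := by
      rw [abs_mul]
      calc |x - 1| * |v 1| ≤ (η / 8) * 1 := by gcongr
        _ = η / 8 := by ring
    have b4 : |y * v 0| ≤ η / 8 := by
      rw [abs_mul]
      calc |y| * |v 0| ≤ (η / 8) * 1 := by gcongr
        _ = η / 8 := by ring
    rw [abs_le] at b1 b2 b3 b4
    cases s
    · have : (gen x y h false) = rot x y h := rfl
      rw [this, r2]
      fin_cases i
      · simp only [Fin.zero_eta, Matrix.mulVec, Matrix.of_apply, Matrix.cons_val', Matrix.cons_val_zero,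
          Matrix.cons_val_fin_one, dotProduct, Fin.sum_univ_two, Matrix.cons_val_one, abs_le]
        constructor <;> nlinarith
      · simp only [Fin.mk_one, Matrix.mulVec, Matrix.of_apply, Matrix.cons_val', Matrix.cons_val_zero,
          Matrix.cons_val_fin_one, dotProduct, Fin.sum_univ_two, Matrix.cons_val_one, abs_le]
        constructor <;> nlinarith
    · have : (gen x y h true)⁻¹ = shr * (rot x y h)⁻¹ * shr⁻¹ := by
        show (shr * rot x y h * shr⁻¹)⁻¹ = _
        group
      have e : (shr * (rot x y h)⁻¹ * shr⁻¹ : SL).1 =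
        (shr : SL).1 * ((rot x y h)⁻¹).1 * (shr⁻¹).1 := rfl
      have e2 : (shr : SL).1 * ((rot x y h)⁻¹).1 * (shr⁻¹).1 =
          !![x - 2 * y, 5 * y; -y, x + 2 * y] := by
        rw [r2, r3, r4]
        ext i j
        fin_cases i <;> fin_cases j <;> simp <;> ring
      rw [this, e, e2]
      fin_cases i
      · simp only [Fin.zero_eta, Matrix.mulVec, Matrix.of_apply, Matrix.cons_val', Matrix.cons_val_zero,
          Matrix.cons_val_fin_one, dotProduct, Fin.sum_univ_two, Matrix.cons_val_one, abs_le]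
        constructor <;> nlinarith
      · simp only [Fin.mk_one, Matrix.mulVec, Matrix.of_apply, Matrix.cons_val', Matrix.cons_val_zero,
          Matrix.cons_val_fin_one, dotProduct, Fin.sum_univ_two, Matrix.cons_val_one, abs_le]
        constructor <;> nlinarith

end Pool.Agent.Y681.Para
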